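import Pool.Agent.Lib.Forcing.Final

/-!
# The least inaccessible cardinal can have the `Σ_1`-colouring property

Relative consistency proof by forcing over a universe with a weakly compact cardinal.
-/

namespace Pool.Agent.Results.MP_c21eaa_lc.LeastInaccessible

open Pool.Agent.Lib.Forcing

/-- If there is a weakly compact cardinal, then there is a countable model of ZFC whose least
inaccessible cardinal exists and has the boldface `Σ_1`-colouring property. -/
theorem result (h : ∃ κ : Cardinal.{0}, WeaklyCompact κ) :
    ∃ (M : Type) (E : M → M → Prop), Countable M ∧ IsZFC M E ∧
      ∃ k, IsInacc E k ∧ (∀ m, E m k → ¬ IsInacc E m) ∧ Sigma1Colouring E k :=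
  countable_consistency h

end Pool.Agent.Results.MP_c21eaa_lc.LeastInaccessible
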